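import Pool.Agent.TH682.KD.Sim
import Pool.Agent.TH682.GD.Thm

/-!
# The number of entries of a complete table is found with few queries
-/

set_option autoImplicit false

namespace Pool.Agent.TH682.KD

open Pool.Agent.NPC Pool.Agent.TH682.GD Pool.Agent.H660R2.NX Pool.Agent.H579R2.Spt
open Pool.Agent.TH684.EX (poly_of_polyTime)

variable {G : Set (List Bool)} {H : ∀ N : ℕ, Subgroup (Equiv.Perm (Fin N))}

/-! ### Distinct entries -/

section nd

variable {β : Type} [DecidableEq β]

omit [DecidableEq β] in
theorem pairwise_iff_zipIdx' (l : List β) (R : β → β → Prop) :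
    (∀ x ∈ l.zipIdx, ∀ y ∈ l.zipIdx, ¬ x.2 < y.2 ∨ R x.1 y.1) ↔ l.Pairwise R := by
  rw [List.pairwise_iff_getElem]
  constructor
  · intro h i j hi hj hij
    have h1 := h (l[i], i) (by
      rw [List.mem_zipIdx_iff_getElem?]; simp [hi]) (l[j], j) (by
      rw [List.mem_zipIdx_iff_getElem?]; simp [hj])
    rcases h1 with h1 | h1
    · exact absurd hij h1
    · exact h1
  · rintro h ⟨x, i⟩ hx ⟨y, j⟩ hy
    rw [List.mem_zipIdx_iff_getElem?] at hx hy
    simp only at hx hy ⊢
    by_cases hij : i < j
    · right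
      obtain ⟨hi, hi'⟩ := List.getElem?_eq_some_iff.1 hx
      obtain ⟨hj, hj'⟩ := List.getElem?_eq_some_iff.1 hy
      have := h i j hi hj hij
      rwa [hi', hj'] at this
    · exact Or.inl hij

/-- Test for different entries. -/
def ndB (l : List β) : Bool :=
  l.zipIdx.all fun b => l.zipIdx.all fun c => !decide (b.2 < c.2) || !decide (b.1 = c.1)

theorem ndB_iff (l : List β) : ndB l = true ↔ l.Nodup := by
  unfold ndB List.Nodup
  rw [← pairwise_iff_zipIdx', List.all_eq_true]
  refine forall₂_congr fun b _ => ?_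
  rw [List.all_eq_true]
  refine forall₂_congr fun c _ => ?_
  simp

theorem ndB_poly [TEnc β] {α : Type} [TEnc α] {l : α → List β} (hl : Poly l) :
    Poly (fun a => ndB (l a)) := by
  refine NPC.Poly.all (l := fun a => (l a).zipIdx) (p := fun a (b : β × ℕ) =>
    (l a).zipIdx.all fun c => !decide (b.2 < c.2) || !decide (b.1 = c.1)) (NPC.Poly.zipIdx hl) ?_
  refine NPC.Poly.all (l := fun q : α × (β × ℕ) => (l q.1).zipIdx)
    (p := fun (q : α × (β × ℕ)) (c : β × ℕ) => !decide (q.2.2 < c.2) || !decide (q.2.1 = c.1))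
    ((NPC.Poly.zipIdx hl).comp (NPC.Poly.fst NPC.Poly.id)) ?_
  have h1 : Poly (fun r : (α × (β × ℕ)) × (β × ℕ) => r.1.2) :=
    NPC.Poly.snd (NPC.Poly.fst NPC.Poly.id)
  have h2 : Poly (fun r : (α × (β × ℕ)) × (β × ℕ) => r.2) := NPC.Poly.snd NPC.Poly.id
  exact NPC.Poly.or (NPC.Poly.not (NPC.Poly.decide_lt (NPC.Poly.snd h1) (NPC.Poly.snd h2)))
    (NPC.Poly.not (NPC.Poly.decide_eq (NPC.Poly.fst h1) (NPC.Poly.fst h2)))

end nd

/-! ### Padded numbers -/

/-- The first `t` digits, followed by zeros. -/
def pd (t : ℕ) (g : List Bool) : List Bool :=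
  g.take t ++ (List.range (t - g.length)).map (fun _ => false)

theorem nv_zeros (k : ℕ) : nv ((List.range k).map (fun _ => false)) = 0 := by
  induction k with
  | zero => rfl
  | succ k ih =>
    rw [List.range_succ, List.map_append, nv_append, ih]
    simp [nv]

theorem nv_pd {t : ℕ} {g : List Bool} (hg : g.length ≤ t) :
    nv (pd t g) = nv g * 2 ^ (t - g.length) := by
  unfold pd
  rw [nv_append, nv_zeros, List.take_of_length_le hg, List.length_map, List.length_range, zero_add,
    mul_comm]

theorem nv_pd_succ {t : ℕ} {h : List Bool} (hh : h.length = t) (b : Bool) :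
    nv (pd t (h ++ [b])) = nv h := by
  unfold pd
  rw [List.length_append, List.length_singleton, hh, show t - (t + 1) = 0 by omega,
    List.range_zero, List.map_nil, List.append_nil, ← hh, List.take_left]

/-- The number of binary digits. -/
def tt (p : Polynomial ℕ) (x : List Bool) : ℕ := ((p.eval x.length) ^ 3).size

/-- The queries: is there a valid table with at least so many entries (and, in the last query, such
that the input is accepted with this table)? -/
def Ask (G : Set (List Bool)) (D : List Bool × (List (List ℕ) × List Bool) → Bool)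
    (p s : Polynomial ℕ) (c : List Bool × List Bool) : Prop :=
  ∃ T : List (List ℕ), Valid G (p.eval c.1.length) T ∧ nv (pd (tt p c.1) c.2) ≤ T.length ∧
    (c.2.length ≤ tt p c.1 ∨ ∃ w : List Bool, w.length ≤ s.eval c.1.length ∧
      D (c.1, (T, w)) = true)

/-- Certificates: entries with witnesses, and a certificate for the input. -/
abbrev Wit := List (List ℕ × List Bool) × List Bool

/-- The check of a certificate. -/
def chk (D : List Bool × (List (List ℕ) × List Bool) → Bool) (p s pG : Polynomial ℕ)
    (V : List Bool → List Bool) (r : (List Bool × List Bool) × Wit) : Bool :=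
  r.2.1.all (fun q => decide (q.2.length ≤ pG.eval (bits q.1).length) &&
    (decide (V (pairBits (bits q.1) q.2) = [true]) && (decide (q.1.length < p.eval r.1.1.length) &&
      !decide (key q.1 = none)))) &&
    (ndB ((r.2.1.map Prod.fst).map kk) && (decide (nv (pd (tt p r.1.1) r.1.2) ≤ r.2.1.length) &&
      (decide (r.1.2.length ≤ tt p r.1.1) || (decide (r.2.2.length ≤ s.eval r.1.1.length) &&
        D (r.1.1, (r.2.1.map Prod.fst, r.2.2))))))

section poly

variable {α : Type} [TEnc α]

theorem kk_poly {v : α → List ℕ} (hv : Poly v) : Poly (fun a => kk (v a)) :=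
  NPC.Poly.pair (NPC.Poly.length hv) (key_poly hv)

theorem tt_upoly (p : Polynomial ℕ) {x : α → List Bool} (hx : Poly x) :
    UPoly (fun a => tt p (x a)) := by
  have h1 : UPoly (fun a => (p.eval (x a).length) ^ 3) :=
    Pool.Agent.W901.FH.pow_upolyc ((UPoly.length hx).eval p) 3
  exact UPoly.of_le ((NPC.Poly.length (NPC.Poly.natBits h1.toPoly)).congr fun q =>
    Nat.size_eq_bits_len _) h1 fun _ => NPC.Poly.size_le_self _

theorem sub_upoly' {a b : α → ℕ} (ha : UPoly a) (hb : Poly b) : UPoly (fun x => a x - b x) :=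
  UPoly.of_le (NPC.Poly.sub ha.toPoly hb) ha fun _ => Nat.sub_le _ _

theorem pd_poly {t : α → ℕ} {g : α → List Bool} (ht : UPoly t) (hg : Poly g) :
    Poly (fun a => pd (t a) (g a)) :=
  NPC.Poly.append (take_poly' hg ht.toPoly) (NPC.Poly.map
    (l := fun a => List.range (t a - (g a).length)) (F := fun _ _ => false)
    (sub_upoly' ht (NPC.Poly.length hg)).range (NPC.Poly.const false))

theorem chk_poly {D : List Bool × (List (List ℕ) × List Bool) → Bool} (hD : Poly D)
    (p s pG : Polynomial ℕ) {V : List Bool → List Bool} (hV : Poly V) :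
    Poly (chk D p s pG V) := by
  have e1 : Poly (fun r : (List Bool × List Bool) × Wit => r.1.1) :=
    NPC.Poly.fst (NPC.Poly.fst NPC.Poly.id)
  have e2 : Poly (fun r : (List Bool × List Bool) × Wit => r.1.2) :=
    NPC.Poly.snd (NPC.Poly.fst NPC.Poly.id)
  have e3 : Poly (fun r : (List Bool × List Bool) × Wit => r.2.1) :=
    NPC.Poly.fst (NPC.Poly.snd NPC.Poly.id)
  have e5 : Poly (fun r : (List Bool × List Bool) × Wit => r.2.2) :=
    NPC.Poly.snd (NPC.Poly.snd NPC.Poly.id)
  have e4 : Poly (fun r : (List Bool × List Bool) × Wit => r.2.1.map Prod.fst) :=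
    NPC.Poly.map (l := fun r : (List Bool × List Bool) × Wit => r.2.1)
      (F := fun _ (q : List ℕ × List Bool) => q.1) e3 (NPC.Poly.fst (NPC.Poly.snd NPC.Poly.id))
  refine NPC.Poly.and ?_ (NPC.Poly.and (ndB_poly ?_) (NPC.Poly.and ?_ (NPC.Poly.or ?_
    (NPC.Poly.and ?_ ?_))))
  · refine NPC.Poly.all (l := fun r : (List Bool × List Bool) × Wit => r.2.1)
      (p := fun r q => decide (q.2.length ≤ pG.eval (bits q.1).length) &&
        (decide (V (pairBits (bits q.1) q.2) = [true]) &&
          (decide (q.1.length < p.eval r.1.1.length) && !decide (key q.1 = none)))) e3 ?_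
    have a1 : Poly (fun s : ((List Bool × List Bool) × Wit) × (List ℕ × List Bool) => s.2.1) :=
      NPC.Poly.fst (NPC.Poly.snd NPC.Poly.id)
    have a2 : Poly (fun s : ((List Bool × List Bool) × Wit) × (List ℕ × List Bool) => s.2.2) :=
      NPC.Poly.snd (NPC.Poly.snd NPC.Poly.id)
    have a3 : Poly (fun s : ((List Bool × List Bool) × Wit) × (List ℕ × List Bool) =>
        bits s.2.1) := bits_poly.comp a1
    have a4 : Poly (fun s : ((List Bool × List Bool) × Wit) × (List ℕ × List Bool) =>
        s.1.1.1) := e1.comp (NPC.Poly.fst NPC.Poly.id)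
    exact NPC.Poly.and (NPC.Poly.decide_le (NPC.Poly.length a2) ((UPoly.length a3).eval pG).toPoly)
      (NPC.Poly.and (NPC.Poly.decide_eq (hV.comp (Pool.Agent.H622R2.poly_pairBits a3 a2))
        (NPC.Poly.const _)) (NPC.Poly.and (NPC.Poly.decide_lt (NPC.Poly.length a1)
          ((UPoly.length a4).eval p).toPoly) (NPC.Poly.not (NPC.Poly.decide_eq (key_poly a1)
            (NPC.Poly.const none)))))
  · exact NPC.Poly.map (l := fun r : (List Bool × List Bool) × Wit => r.2.1.map Prod.fst)
      (F := fun _ v => kk v) e4 (kk_poly (NPC.Poly.snd NPC.Poly.id))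
  · exact NPC.Poly.decide_le (nv_poly (pd_poly (tt_upoly p e1) e2)) (NPC.Poly.length e3)
  · exact NPC.Poly.decide_le (NPC.Poly.length e2) (tt_upoly p e1).toPoly
  · exact NPC.Poly.decide_le (NPC.Poly.length e5) ((UPoly.length e1).eval s).toPoly
  · exact hD.comp (NPC.Poly.pair e1 (NPC.Poly.pair e4 e5))

end poly

/-- The size of the entries. -/
def eB (m : ℕ) : ℕ := m * (4 * m + 2) + 1

theorem entry_sz_le (hG : ∀ z : List Bool, z ∈ G ↔ ∃ (N : ℕ) (σ : Equiv.Perm (Fin N)),
    σ ∈ H N ∧ z = bits (vals σ)) {m : ℕ} {v : List ℕ} (hv : bits v ∈ G) (hm : v.length < m) :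
    sz v ≤ eB m := by
  obtain ⟨N, σ, _, h5⟩ := (hG _).1 hv
  have h6 := bits_inj h5
  subst h6
  refine Good.sz_le (B := m) ⟨by omega, fun e he => ?_⟩
  unfold vals at he
  rw [List.mem_ofFn] at he
  obtain ⟨i, rfl⟩ := he
  have h7 := (σ i).2
  rw [vals_length] at hm
  have h8 := sz_nat_le ((σ i : ℕ))
  have h9 := NPC.Poly.size_le_self ((σ i : ℕ))
  omega

/-- **The queries are in `NP`.** -/
theorem ask_inNP (hG : ∀ z : List Bool, z ∈ G ↔ ∃ (N : ℕ) (σ : Equiv.Perm (Fin N)),
    σ ∈ H N ∧ z = bits (vals σ)) (hGN : InNP G)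
    {D : List Bool × (List (List ℕ) × List Bool) → Bool}
    (hD : Poly D) (p s : Polynomial ℕ) : InNP (lang (Ask G D p s)) := by
  obtain ⟨V, pG, hV, hVG⟩ := hGN
  have hVp : Poly V := PIso.poly_iff.2 hV
  set dc : List Bool → List Bool × List Bool := fun z =>
    (unbits (List Bool × List Bool) z).getD ([], []) with hdc
  set dw : List Bool → Wit := fun z => (unbits Wit z).getD ([], []) with hdw
  have hdcp : Poly dc := NPC.Poly.optGetD poly_unbits (NPC.Poly.const _)
  have hdwp : Poly dw := NPC.Poly.optGetD poly_unbits (NPC.Poly.const _)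
  obtain ⟨Q, hQ⟩ : ∃ Q : Polynomial ℕ, ∀ m, Q.eval m =
      m ^ 3 * (eB m + (4 * pG.eval (eB m) + 1) + 1 + 1) + 1 :=
    ⟨Polynomial.X ^ 3 * ((Polynomial.X * (Polynomial.C 4 * Polynomial.X + 2) + 1) +
      (Polynomial.C 4 * pG.comp (Polynomial.X * (Polynomial.C 4 * Polynomial.X + 2) + 1) + 1) +
        1 + 1) + 1, fun m => by
      unfold eB
      simp only [Polynomial.eval_add, Polynomial.eval_mul, Polynomial.eval_C, Polynomial.eval_X,
        Polynomial.eval_one, Polynomial.eval_pow, Polynomial.eval_ofNat, Polynomial.eval_comp]⟩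
  refine ⟨fun z => [decide (bits (dc (unpair z).1) = (unpair z).1) &&
    chk D p s pG V (dc (unpair z).1, dw (unpair z).2)],
    Q.comp p + Polynomial.C 4 * s + 2, polyTime_of_poly (NPC.Poly.and
      (NPC.Poly.decide_eq (bits_poly.comp (hdcp.comp (NPC.Poly.fst poly_unpair)))
        (NPC.Poly.fst poly_unpair)) ((chk_poly hD p s pG hVp).comp (NPC.Poly.pair
          (hdcp.comp (NPC.Poly.fst poly_unpair)) (hdwp.comp (NPC.Poly.snd poly_unpair))))),
    fun z => ?_⟩
  simp only [unpair_pairBits, List.cons.injEq, and_true, Bool.and_eq_true, decide_eq_true_eq]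
  constructor
  · rintro ⟨c, rfl, T, hT, hlen, hD'⟩
    choose! W hW using fun v (hv : v ∈ T) => (hVG _).1 (hT.1 v hv).1
    have hc : dc (bits c) = c := by
      simp only [hdc, unbits_bits]
      rfl
    have hmap : (T.map (fun v => (v, W v))).map Prod.fst = T := by
      rw [List.map_map]
      exact (List.map_congr_left fun x _ => rfl).trans (List.map_id T)
    obtain ⟨u, hu, huD⟩ : ∃ u : List Bool, u.length ≤ s.eval c.1.length ∧
        (c.2.length ≤ tt p c.1 ∨ D (c.1, (T, u)) = true) := by
      rcases hD' with h | ⟨w, hw, hwD⟩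
      · exact ⟨[], by simp, Or.inl h⟩
      · exact ⟨w, hw, Or.inr hwD⟩
    have h4 : c.1.length ≤ sz c := by
      have h5 := length_lt_sz c.1
      have h6 : sz c = sz c.1 + sz c.2 + 1 := by rw [← sz_pair]
      omega
    refine ⟨bits (T.map (fun v => (v, W v)), u), ?_, by rw [hc], ?_⟩
    · rw [bits_length, bits_length, sz_pair]
      simp only [Polynomial.eval_add, Polynomial.eval_mul, Polynomial.eval_C, Polynomial.eval_comp,
        Polynomial.eval_ofNat]
      have h1 := sz_le_length_mul (T.map (fun v => (v, W v)))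
        (eB (p.eval c.1.length) + (4 * pG.eval (eB (p.eval c.1.length)) + 1) + 1) fun q hq => by
          obtain ⟨v, hv, rfl⟩ := List.mem_map.1 hq
          rw [sz_pair]
          obtain ⟨h2, h3, _⟩ := hT.1 v hv
          have h4 := entry_sz_le hG h2 h3
          have h5 := (hW v hv).1
          rw [bits_length] at h5
          have h6 := eval_mono pG h4
          have h7 := sz_listBool_le (W v)
          omega
      rw [List.length_map] at h1
      have h2 := valid_length_le hG hT
      have h3 := Nat.mul_le_mul_right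
        (eB (p.eval c.1.length) + (4 * pG.eval (eB (p.eval c.1.length)) + 1) + 1 + 1) h2
      have h5 := eval_mono Q (eval_mono p h4)
      rw [hQ (p.eval c.1.length)] at h5
      have h6 := sz_listBool_le u
      have h7 := eval_mono s h4
      omega
    · have hw : dw (bits (T.map (fun v => (v, W v)), u)) = (T.map (fun v => (v, W v)), u) := by
        simp only [hdw, unbits_bits]
        rfl
      rw [hc, hw]
      unfold chk
      simp only [hmap, Bool.and_eq_true, List.all_eq_true, decide_eq_true_eq, Bool.or_eq_true,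
        ndB_iff, List.length_map, Bool.not_eq_true', decide_eq_false_iff_not]
      refine ⟨fun q hq => ?_, hT.2, hlen, huD.imp_right fun h => ⟨hu, h⟩⟩
      obtain ⟨v, hv, rfl⟩ := List.mem_map.1 hq
      exact ⟨(hW v hv).1, (hW v hv).2, (hT.1 v hv).2.1, (hT.1 v hv).2.2⟩
  · rintro ⟨w, _, h1, h2⟩
    refine ⟨dc z, h1, (dw w).1.map Prod.fst, ⟨fun v hv => ?_, ?_⟩, ?_, ?_⟩
    all_goals
      unfold chk at h2
      simp only [Bool.and_eq_true, List.all_eq_true, decide_eq_true_eq, Bool.or_eq_true,
        ndB_iff, Bool.not_eq_true', decide_eq_false_iff_not] at h2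
      obtain ⟨h2, h3, h4, h5⟩ := h2
    · obtain ⟨q, hq, rfl⟩ := List.mem_map.1 hv
      obtain ⟨a1, a2, a3, a4⟩ := h2 q hq
      exact ⟨(hVG _).2 ⟨q.2, a1, a2⟩, a3, a4⟩
    · exact h3
    · rw [List.length_map]
      exact h4
    · exact h5.imp_right fun h => ⟨_, h.1, h.2⟩

theorem exists_longest (hG : ∀ z : List Bool, z ∈ G ↔ ∃ (N : ℕ) (σ : Equiv.Perm (Fin N)),
    σ ∈ H N ∧ z = bits (vals σ)) (m : ℕ) : ∃ T, Valid G m T ∧
      ∀ T', Valid G m T' → T'.length ≤ T.length := by
  classical
  have h0 : ∃ T, Valid G m T ∧ T.length = 0 := ⟨[], ⟨by simp, by simp⟩, rfl⟩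
  have h1 := Nat.findGreatest_spec (P := fun k => ∃ T, Valid G m T ∧ T.length = k)
    (Nat.zero_le (m ^ 3)) h0
  obtain ⟨T, hT, hlen⟩ := h1
  refine ⟨T, hT, fun T' hT' => ?_⟩
  rw [hlen]
  exact Nat.le_findGreatest (valid_length_le hG hT') ⟨T', hT', rfl⟩

theorem lt_two_pow_size (n : ℕ) : n < 2 ^ n.size := Nat.lt_size_self n

/-- The algorithm. -/
def act (p : Polynomial ℕ) (y : List Bool) : List Bool :=
  if (unpair y).2.length ≤ tt p (unpair (unpair y).1).1 then
    false :: bits ((unpair (unpair y).1).1, (unpair y).2 ++ [true])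
  else if (unpair y).2.getD (tt p (unpair (unpair y).1).1) false = true then [true] else []

theorem act_poly (p : Polynomial ℕ) : Poly (act p) := by
  have e1 : Poly (fun y : List Bool => (unpair (unpair y).1).1) :=
    NPC.Poly.fst (poly_unpair.comp (NPC.Poly.fst poly_unpair))
  have e2 : Poly (fun y : List Bool => (unpair y).2) := NPC.Poly.snd poly_unpair
  have e3 := (tt_upoly p e1).toPoly
  exact NPC.Poly.ite (NPC.Poly.decide_le (NPC.Poly.length e2) e3)
    (NPC.Poly.cons (NPC.Poly.const false) (bits_poly.comp (NPC.Poly.pair e1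
      (NPC.Poly.append e2 (NPC.Poly.const [true])))))
    (NPC.Poly.ite (NPC.Poly.decide_eq (NPC.Poly.getD e2 e3 (NPC.Poly.const false))
      (NPC.Poly.const true)) (NPC.Poly.const _) (NPC.Poly.const _))

theorem alg_act (p : Polynomial ℕ) (x h : List Bool) : alg (act p) x [] h =
    if h.length ≤ tt p x then false :: bits (x, h ++ [true])
    else if h.getD (tt p x) false = true then [true] else [] := by
  unfold alg act
  simp only [unpair_pairBits]

theorem correct_snoc {f : List Bool → List Bool} {A : Set (List Bool)} {h q : List Bool} {b : Bool}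
    (hc : Correct f A h) (hq : f h = false :: q) (hb : b = true ↔ q ∈ A) :
    Correct f A (h ++ [b]) := by
  intro i hi
  rw [List.length_append, List.length_singleton] at hi
  rcases Nat.lt_or_ge i h.length with h1 | h1
  · obtain ⟨q', h2, h3⟩ := hc i h1
    refine ⟨q', ?_, ?_⟩
    · rw [List.take_append_of_le_length h1.le]
      exact h2
    · rw [List.getElem_append_left h1]
      exact h3
  · have h2 : i = h.length := by omega
    subst h2
    refine ⟨q, ?_, ?_⟩
    · rw [List.take_left]
      exact hq
    · rw [List.getElem_append_right le_rfl]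
      simpa using hb

/-- **Few queries.** -/
theorem log_of_inNY (hG : ∀ z : List Bool, z ∈ G ↔ ∃ (N : ℕ) (σ : Equiv.Perm (Fin N)),
    σ ∈ H N ∧ z = bits (vals σ)) (hGN : InNP G) {L : Set (List Bool)} (hL : InNY G L) :
    InPNPLog L := by
  classical
  obtain ⟨D, p, s, hD, hDL⟩ := hL
  obtain ⟨b, hb⟩ := exists_pow_add_bound (p ^ 3)
  refine ⟨act p, lang (Ask G D p s), b + 2, PIso.poly_iff.1 (act_poly p), ask_inNP hG hGN hD p s,
    fun x => ?_⟩
  set t := tt p x with ht
  obtain ⟨T, hT, hmax⟩ := exists_longest hG (p.eval x.length)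
  set K := T.length with hK
  have hKt : K < 2 ^ t :=
    (valid_length_le hG hT).trans_lt (lt_two_pow_size _)
  have hmem : ∀ g : List Bool, bits (x, g) ∈ lang (Ask G D p s) ↔ Ask G D p s (x, g) :=
    fun g => bits_mem_lang
  -- count queries
  have hcount : ∀ g : List Bool, g.length ≤ t →
      (bits (x, g) ∈ lang (Ask G D p s) ↔ nv g * 2 ^ (t - g.length) ≤ K) := by
    intro g hg
    rw [hmem, ← nv_pd hg]
    constructor
    · rintro ⟨T', h1, h2, _⟩
      exact h2.trans (hmax T' h1)
    · intro h
      exact ⟨T, hT, h, Or.inl hg⟩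
  have hstep : ∀ i ≤ t, ∃ h : List Bool, h.length = i ∧
      Correct (alg (act p) x []) (lang (Ask G D p s)) h ∧ nv h * 2 ^ (t - i) ≤ K ∧
        K < (nv h + 1) * 2 ^ (t - i) := by
    intro i
    induction i with
    | zero =>
      intro _
      refine ⟨[], rfl, fun i hi => absurd hi (Nat.not_lt_zero _), by simp [nv], ?_⟩
      simpa [nv] using hKt
    | succ i ih =>
      intro hi
      obtain ⟨h, h1, h2, h3, h4⟩ := ih (by omega)
      have h5 : alg (act p) x [] h = false :: bits (x, h ++ [true]) := by
        rw [alg_act, if_pos (by omega)]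
      have h6 := hcount (h ++ [true]) (by
        rw [List.length_append, List.length_singleton]
        omega)
      rw [nv_concat, if_pos rfl, List.length_append, List.length_singleton, h1] at h6
      refine ⟨h ++ [decide (bits (x, h ++ [true]) ∈ lang (Ask G D p s))], by
        rw [List.length_append, List.length_singleton, h1], correct_snoc h2 h5 (by simp), ?_⟩
      have h7 : t - i = (t - (i + 1)) + 1 := by omega
      rw [h7, pow_succ] at h3 h4
      rw [nv_concat]
      by_cases h8 : bits (x, h ++ [true]) ∈ lang (Ask G D p s)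
      · rw [decide_eq_true h8, if_pos rfl]
        have h9 := h6.1 h8
        refine ⟨h9, ?_⟩
        calc K < (nv h + 1) * (2 ^ (t - (i + 1)) * 2) := h4
          _ = _ := by ring
      · rw [decide_eq_false h8]
        have h9 := fun h => h8 (h6.2 h)
        refine ⟨?_, ?_⟩
        · refine le_trans (le_of_eq ?_) h3
          simp only [Bool.false_eq_true, if_false]
          ring
        · simp only [Bool.false_eq_true, if_false]
          refine lt_of_lt_of_le (not_le.1 h9) (le_of_eq ?_)
          ring
  obtain ⟨h, h1, h2, h3, h4⟩ := hstep t le_rfl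
  rw [Nat.sub_self, pow_zero, mul_one] at h3 h4
  have h5 : nv h = K := by omega
  have h6 : alg (act p) x [] h = false :: bits (x, h ++ [true]) := by
    rw [alg_act, if_pos (by omega)]
  have h7 : bits (x, h ++ [true]) ∈ lang (Ask G D p s) ↔ x ∈ L := by
    rw [hmem]
    unfold Ask
    simp only
    rw [nv_pd_succ h1, h5]
    constructor
    · rintro ⟨T', a1, a2, a3⟩
      have a4 : Comp G (p.eval x.length) T' := comp_of_max hG a1 fun T'' hT'' =>
        (hmax T'' hT'').trans a2
      refine (hDL x T' a4).2 (a3.resolve_left ?_)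
      rw [List.length_append, List.length_singleton]
      omega
    · intro hx
      exact ⟨T, hT, le_rfl, Or.inr ((hDL x T (comp_of_max hG hT hmax)).1 hx)⟩
  refine ⟨h ++ [decide (x ∈ L)], ?_, correct_snoc h2 h6 (by rw [decide_eq_true_eq, h7]), ?_, ?_⟩
  · rw [List.length_append, List.length_singleton, h1]
    -- the number of queries
    have a1 := hb x.length
    rw [Polynomial.eval_pow] at a1
    have a2 : x.length < 2 ^ (Nat.log 2 x.length + 1) :=
      Nat.lt_pow_succ_log_self (by norm_num) _
    set l := Nat.log 2 x.length + 1 with hl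
    have a3 : x.length ^ b ≤ 2 ^ (l * b) := by
      rw [pow_mul]
      exact Nat.pow_le_pow_left a2.le b
    have a4 : b < 2 ^ (l * b) := (Nat.lt_two_pow_self (n := b)).trans_le
      (Nat.pow_le_pow_right (by norm_num) (by
        have : 1 ≤ l := by omega
        nlinarith))
    have a5 : (p.eval x.length) ^ 3 < 2 ^ (l * b + 1) := by
      rw [pow_succ 2 (l * b)]
      omega
    have a6 : t ≤ l * b + 1 := Nat.size_le.2 a5
    have a7 : 1 ≤ l := by omega
    nlinarith
  · intro q hq
    rw [alg_act, if_neg (by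
      rw [List.length_append, List.length_singleton, h1]
      omega)] at hq
    split_ifs at hq
    · simp at hq
  · rw [alg_act, if_neg (by
      rw [List.length_append, List.length_singleton, h1]
      omega)]
    have a1 : (h ++ [decide (x ∈ L)]).getD (tt p x) false = decide (x ∈ L) := by
      rw [List.getD_eq_getElem _ _ (by
        rw [List.length_append, List.length_singleton, h1]
        omega), List.getElem_append_right (by omega)]
      simp
    rw [a1]
    by_cases hx : x ∈ L <;> simp [hx]

/-- The opposite algorithm. -/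
def opp (f : List Bool → List Bool) (y : List Bool) : List Bool :=
  if (alg f (unpair (unpair (unpair y).1).1).1 [] (unpair y).2).head? = some false then
    alg f (unpair (unpair (unpair y).1).1).1 [] (unpair y).2
  else if alg f (unpair (unpair (unpair y).1).1).1 [] (unpair y).2 = [true] then [] else [true]

theorem opp_poly {f : List Bool → List Bool} (hf : Poly f) : Poly (opp f) := by
  have e1 : Poly (fun y : List Bool => (unpair (unpair (unpair y).1).1).1) :=
    NPC.Poly.fst (poly_unpair.comp (NPC.Poly.fst (poly_unpair.comp (NPC.Poly.fst poly_unpair))))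
  have e2 : Poly (fun y : List Bool => (unpair y).2) := NPC.Poly.snd poly_unpair
  have e3 := alg_poly hf e1 e2
  exact NPC.Poly.ite (NPC.Poly.decide_eq (NPC.Poly.head? e3) (NPC.Poly.const _)) e3
    (NPC.Poly.ite (NPC.Poly.decide_eq e3 (NPC.Poly.const _)) (NPC.Poly.const _)
      (NPC.Poly.const _))

theorem alg_opp (f : List Bool → List Bool) (z h : List Bool) : alg (opp f) z [] h =
    if (alg f (unpair z).1 [] h).head? = some false then alg f (unpair z).1 [] h
    else if alg f (unpair z).1 [] h = [true] then [] else [true] := by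
  conv_lhs => unfold alg opp
  simp only [unpair_pairBits]

/-- Complements of languages in `P^G` are in `NP^G`. -/
theorem inNPT_compl {G L : Set (List Bool)} (h : InPT G L) : InNPT G Lᶜ := by
  obtain ⟨f, r, hf, hdec⟩ := h
  have hfp : Poly f := PIso.poly_iff.2 hf
  obtain ⟨q, hq⟩ := PIso.length_bound (NPC.Poly.fst poly_unpair)
  refine ⟨{z | (unpair z).1 ∉ L}, 0, ⟨opp f, r.comp q, PIso.poly_iff.1 (opp_poly hfp),
    fun z => ?_⟩, fun x => ?_⟩
  · obtain ⟨h, h1, h2, h3, h4⟩ := hdec (unpair z).1
    have h5 : (alg f (unpair z).1 [] h).head? ≠ some false := fun h6 => by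
      obtain ⟨q, h7⟩ := head?_eq.1 h6
      exact h3 q h7
    refine ⟨h, ?_, fun i hi => ?_, fun q => ?_, ?_⟩
    · rw [Polynomial.eval_comp]
      exact h1.trans (eval_mono r (hq z))
    · obtain ⟨q, h6, h7⟩ := h2 i hi
      refine ⟨q, ?_, h7⟩
      rw [alg_opp, h6]
      simp
    · rw [alg_opp, if_neg h5]
      split_ifs <;> simp
    · rw [alg_opp, if_neg h5, Set.mem_ofPred_eq, ← h4]
      split_ifs with h6
      · simp [h6]
      · simp [h6]
  · rw [Set.mem_compl_iff]
    constructor
    · intro hx
      refine ⟨[], by simp, ?_⟩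
      rw [Set.mem_ofPred_eq, unpair_pairBits]
      exact hx
    · rintro ⟨w, _, hw⟩
      rw [Set.mem_ofPred_eq, unpair_pairBits] at hw
      exact hw

/-- **Group languages in `NP` to which `coNP` reduces.** -/
theorem kadin {G : Set (List Bool)} (hG : GroupLang G) (hGN : InNP G)
    (hco : ∀ L, InNP L → InNPT G Lᶜ) {L : Set (List Bool)} (hL : Pool.Agent.W903.GP.InPH L) :
    InPNPLog L := by
  obtain ⟨H, hH⟩ := hG
  obtain ⟨k, hk⟩ := hL
  exact log_of_inNY hH hGN (ph_inNY hH hco k L hk)

end Pool.Agent.TH682.KD
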