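import Pool.Agent.TH682.GD.Perm
import Pool.Agent.H660R2.NX.Defs
import Pool.Agent.W903.GP.Hier

/-!
# Group languages

Polynomial time is Mathlib's `Turing.TM2ComputableInPolyTime` (through `Pool.Agent.NPC.PolyTime`).
-/

set_option autoImplicit false

namespace Pool.Agent.TH682.KD

open Pool.Agent.NPC Pool.Agent.TH682.GD Pool.Agent.H660R2.NX

/-- A group language: for every `N`, its members that are permutations of `N` points (each coded by
the list of its values) form a subgroup `H N` of the symmetric group, and it has no other
members. -/
def GroupLang (G : Set (List Bool)) : Prop :=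
  ∃ H : ∀ N : ℕ, Subgroup (Equiv.Perm (Fin N)), ∀ z : List Bool,
    z ∈ G ↔ ∃ (N : ℕ) (σ : Equiv.Perm (Fin N)), σ ∈ H N ∧ z = bits (vals σ)

/-- Cook reductions: `L` is decided in polynomial time with the oracle `G`; there are polynomially
many queries, and each action is computed in polynomial time from the input and the answers received
so far. -/
def InPT (G L : Set (List Bool)) : Prop :=
  ∃ (f : List Bool → List Bool) (r : Polynomial ℕ), PolyTime f ∧
    ∀ x : List Bool, Decides (alg f x []) G (r.eval x.length) (x ∈ L)

/-- The class `NP^G`: languages with certificates of polynomial length, verified in polynomial time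
with the oracle `G`. -/
def InNPT (G L : Set (List Bool)) : Prop :=
  ∃ (M : Set (List Bool)) (s : Polynomial ℕ), InPT G M ∧
    ∀ x : List Bool, x ∈ L ↔ ∃ w : List Bool, w.length ≤ s.eval x.length ∧ pairBits x w ∈ M

/-- The class `P^NP[O(log n)]`: polynomial time with `O(log n)` queries to an oracle in `NP`. -/
def InPNPLog (L : Set (List Bool)) : Prop :=
  ∃ (f : List Bool → List Bool) (A : Set (List Bool)) (c : ℕ), PolyTime f ∧ InNP A ∧
    ∀ x : List Bool, Decides (alg f x []) A (c * (Nat.log 2 x.length + 1)) (x ∈ L)

end Pool.Agent.TH682.KD
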