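import Pool.Agent.TH682.KD.Table
import Pool.Agent.TH682.GD.PolyG
import Pool.Agent.TH682.GD.Left
import Pool.Agent.TH684.EX.Thm
import Pool.Agent.H579R2.Spt.Complete2

/-!
# Simulation with a complete table, and the polynomial hierarchy
-/

set_option autoImplicit false

namespace Pool.Agent.TH682.KD

open Pool.Agent.NPC Pool.Agent.TH682.GD Pool.Agent.H660R2.NX Pool.Agent.H579R2.Spt
open Pool.Agent.TH684.EX (poly_of_polyTime)
open Pool.Agent.W903.GP (SigmaP InPH)

section poly

variable {α : Type} [TEnc α]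

theorem row_poly {N : α → ℕ} {T : α → List (List ℕ)} (hN : Poly N) (hT : Poly T) :
    Poly (fun a => row (N a) (T a)) :=
  NPC.Poly.filter (l := T) (p := fun a v => decide (v.length = N a)) hT
    (NPC.Poly.decide_eq (NPC.Poly.length (NPC.Poly.snd NPC.Poly.id))
      (hN.comp (NPC.Poly.fst NPC.Poly.id)))

theorem cut_poly {m : α → ℕ} {T : α → List (List ℕ)} (hm : Poly m) (hT : Poly T) :
    Poly (fun a => cut (m a) (T a)) :=
  NPC.Poly.filter (l := T) (p := fun a v => decide (v.length < m a)) hT
    (NPC.Poly.decide_lt (NPC.Poly.length (NPC.Poly.snd NPC.Poly.id))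
      (hm.comp (NPC.Poly.fst NPC.Poly.id)))

theorem isp_poly {v : α → List ℕ} (hv : Poly v) : Poly (fun a => isp (v a)) :=
  NPC.Poly.all (l := fun a => List.range (v a).length) (p := fun a i => decide (i ∈ v a))
    (UPoly.length hv).range (NPC.Poly.decide_mem (NPC.Poly.snd NPC.Poly.id)
      (hv.comp (NPC.Poly.fst NPC.Poly.id)))

theorem ans_poly {T : α → List (List ℕ)} {q : α → List Bool} (hT : Poly T) (hq : Poly q) :
    Poly (fun a => ans (T a) (q a)) := by
  have hv : Poly (fun a => (unbits (List ℕ) (q a)).getD []) :=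
    NPC.Poly.optGetD (poly_unbits.comp hq) (NPC.Poly.const _)
  exact NPC.Poly.and (NPC.Poly.decide_eq (bits_poly.comp hv) hq) (NPC.Poly.and (isp_poly hv)
    (NPC.Poly.decide_eq (key_poly (sft_poly (row_poly (NPC.Poly.length hv) hT) hv))
      (NPC.Poly.const none)))

end poly

/-- One step of the simulation. -/
def stepS (f : List Bool → List Bool) (x : List Bool) (T : List (List ℕ)) (h : List Bool) :
    List Bool :=
  if (alg f x [] h).head? = some false then h ++ [ans T (alg f x [] h).tail] else h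

theorem head?_eq {l : List Bool} : l.head? = some false ↔ ∃ q, l = false :: q := by
  cases l with
  | nil => simp
  | cons b l => simp

theorem stepS_query {f : List Bool → List Bool} {x : List Bool} {T : List (List ℕ)}
    {h q : List Bool} (hq : alg f x [] h = false :: q) : stepS f x T h = h ++ [ans T q] := by
  unfold stepS
  rw [hq]
  simp

theorem stepS_stop {f : List Bool → List Bool} {x : List Bool} {T : List (List ℕ)}
    {h : List Bool} (hq : ∀ q, alg f x [] h ≠ false :: q) : stepS f x T h = h := by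
  unfold stepS
  rw [if_neg fun h1 => ?_]
  obtain ⟨q, h2⟩ := head?_eq.1 h1
  exact hq q h2

/-- **Simulation.** -/
theorem sim_correct {f : List Bool → List Bool} {x : List Bool} {T : List (List ℕ)}
    {G : Set (List Bool)} {R : ℕ} {P : Prop} (hdec : Decides (alg f x []) G R P)
    (hans : ∀ h q : List Bool, h.length < R → alg f x [] h = false :: q →
      (ans T q = true ↔ q ∈ G)) :
    alg f x [] ((stepS f x T)^[R] []) = [true] ↔ P := by
  obtain ⟨h, h1, h2, h3, h4⟩ := hdec
  have key : ∀ i ≤ h.length, (stepS f x T)^[i] [] = h.take i := by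
    intro i
    induction i with
    | zero => intro _; rfl
    | succ i ih =>
      intro hi
      obtain ⟨q, h5, h6⟩ := h2 i (by omega)
      rw [Function.iterate_succ_apply', ih (by omega), stepS_query h5,
        List.take_succ_eq_append_getElem (by omega)]
      congr 2
      rw [Bool.eq_iff_iff, h6]
      exact hans (h.take i) q (by rw [List.length_take]; omega) h5
  have hfin : (stepS f x T)^[R] [] = h := by
    obtain ⟨j, hj⟩ : ∃ j, R = j + h.length := ⟨R - h.length, by omega⟩
    rw [hj, Function.iterate_add_apply, key _ le_rfl, List.take_length]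
    clear hj
    induction j with
    | zero => rfl
    | succ j ih => rw [Function.iterate_succ_apply', ih, stepS_stop h3]
  rw [hfin]
  exact h4

/-- The simulated decision. -/
def simD (f : List Bool → List Bool) (r : Polynomial ℕ) (c : List Bool × List (List ℕ)) : Bool :=
  decide (alg f c.1 [] ((stepS f c.1 c.2)^[(List.range (r.eval c.1.length)).length] []) = [true])

theorem alg_poly {α : Type} [TEnc α] {f : List Bool → List Bool} (hf : Poly f)
    {x h : α → List Bool} (hx : Poly x) (hh : Poly h) : Poly (fun a => alg f (x a) [] (h a)) :=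
  hf.comp (Pool.Agent.H622R2.poly_pairBits (Pool.Agent.H622R2.poly_pairBits hx
    (NPC.Poly.const _)) hh)

theorem stepS_poly {f : List Bool → List Bool} (hf : Poly f) :
    Poly (fun q : (List Bool × List (List ℕ)) × List Bool => stepS f q.1.1 q.1.2 q.2) := by
  have e1 : Poly (fun q : (List Bool × List (List ℕ)) × List Bool => q.1.1) :=
    NPC.Poly.fst (NPC.Poly.fst NPC.Poly.id)
  have e2 : Poly (fun q : (List Bool × List (List ℕ)) × List Bool => q.1.2) :=
    NPC.Poly.snd (NPC.Poly.fst NPC.Poly.id)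
  have e3 : Poly (fun q : (List Bool × List (List ℕ)) × List Bool => q.2) :=
    NPC.Poly.snd NPC.Poly.id
  have ha := alg_poly hf e1 e3
  exact NPC.Poly.ite (NPC.Poly.decide_eq (NPC.Poly.head? ha) (NPC.Poly.const _))
    (NPC.Poly.append e3 (NPC.Poly.cons (ans_poly e2 (NPC.Poly.tail ha)) (NPC.Poly.const [])))
    e3

theorem stepS_length (f : List Bool → List Bool) (x : List Bool) (T : List (List ℕ)) (m : ℕ) :
    ((stepS f x T)^[m] []).length ≤ m := by
  induction m with
  | zero => simp
  | succ m ih =>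
    rw [Function.iterate_succ_apply']
    unfold stepS
    split_ifs
    · rw [List.length_append, List.length_singleton]
      exact Nat.succ_le_succ ih
    · exact ih.trans (Nat.le_succ m)

theorem simD_poly {f : List Bool → List Bool} (hf : Poly f) (r : Polynomial ℕ) :
    Poly (simD f r) := by
  have e1 : Poly (fun c : List Bool × List (List ℕ) => c.1) := NPC.Poly.fst NPC.Poly.id
  have hr : UPoly (fun c : List Bool × List (List ℕ) => r.eval c.1.length) :=
    (UPoly.length e1).eval r
  have h1 : Poly (fun c : List Bool × List (List ℕ) =>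
      (stepS f c.1 c.2)^[(List.range (r.eval c.1.length)).length] []) := by
    refine NPC.Poly.iterLen (l := fun c : List Bool × List (List ℕ) =>
      List.range (r.eval c.1.length)) (s := fun _ => ([] : List Bool))
      (F := fun c h => stepS f c.1 c.2 h) hr.range (NPC.Poly.const _) (stepS_poly hf)
      (Polynomial.C 4 * r + 1) fun c k hk => ?_
    rw [List.length_range] at hk
    change sz ((stepS f c.1 c.2)^[k] []) ≤ _
    have h2 := stepS_length f c.1 c.2 k
    have h3 := sz_listBool_le ((stepS f c.1 c.2)^[k] [])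
    have h4 : c.1.length ≤ sz c := by
      have h5 := length_lt_sz c.1
      have h6 : sz c = sz c.1 + sz c.2 + 1 := by rw [← sz_pair]
      omega
    have h5 := eval_mono r h4
    simp only [Polynomial.eval_add, Polynomial.eval_mul, Polynomial.eval_C, Polynomial.eval_one]
    omega
  exact NPC.Poly.decide_eq (alg_poly hf e1 h1) (NPC.Poly.const _)

/-! ### Languages decided with complete tables -/

/-- The languages which are decided in polynomial time with a complete table. -/
def InY (G L : Set (List Bool)) : Prop :=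
  ∃ (D : List Bool × List (List ℕ) → Bool) (p : Polynomial ℕ), Poly D ∧
    ∀ (x : List Bool) (T : List (List ℕ)), Comp G (p.eval x.length) T → (D (x, T) = true ↔ x ∈ L)

variable {G : Set (List Bool)} {H : ∀ N : ℕ, Subgroup (Equiv.Perm (Fin N))}

theorem inY_of_inPT (hG : ∀ z : List Bool, z ∈ G ↔ ∃ (N : ℕ) (σ : Equiv.Perm (Fin N)),
    σ ∈ H N ∧ z = bits (vals σ)) {L : Set (List Bool)} (h : InPT G L) : InY G L := by
  obtain ⟨f, r, hf, hdec⟩ := h
  have hfp : Poly f := PIso.poly_iff.2 hf
  obtain ⟨q, hq⟩ := PIso.length_bound hfp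
  refine ⟨simD f r, q.comp (Polynomial.C 4 * Polynomial.X + 3 + r), simD_poly hfp r,
    fun x T hT => ?_⟩
  unfold simD
  rw [decide_eq_true_eq, List.length_range]
  change alg f x [] ((stepS f x T)^[r.eval x.length] []) = [true] ↔ _
  refine sim_correct (hdec x) fun h z hh hz => ?_
  refine ans_iff hG hT ?_
  have h1 := hq (pairBits (pairBits x []) h)
  have h2 : f (pairBits (pairBits x []) h) = false :: z := hz
  rw [h2, List.length_cons, PIso.pairBits_length,
    PIso.pairBits_length] at h1
  rw [Polynomial.eval_comp]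
  simp only [Polynomial.eval_add, Polynomial.eval_mul, Polynomial.eval_C, Polynomial.eval_X,
    Polynomial.eval_ofNat]
  have h3 : q.eval (2 * (2 * x.length + 1 + ([] : List Bool).length) + 1 + h.length) ≤
      q.eval (4 * x.length + 3 + r.eval x.length) := eval_mono q (by
    rw [List.length_nil]
    omega)
  omega

/-- The size of complete tables. -/
def szB (m : ℕ) : ℕ := m ^ 3 * (m * (4 * m + 2) + 1 + 1) + 1

theorem valid_sz_le (hG : ∀ z : List Bool, z ∈ G ↔ ∃ (N : ℕ) (σ : Equiv.Perm (Fin N)),
    σ ∈ H N ∧ z = bits (vals σ)) {m : ℕ} {T : List (List ℕ)} (hT : Valid G m T) :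
    sz T ≤ szB m := by
  have h1 := sz_le_length_mul T (m * (4 * m + 2) + 1) fun v hv => by
    obtain ⟨h2, h3, _⟩ := hT.1 v hv
    obtain ⟨N, σ, _, h5⟩ := (hG _).1 h2
    have h6 := bits_inj h5
    subst h6
    refine Good.sz_le (B := m) ⟨by omega, fun e he => ?_⟩
    unfold vals at he
    rw [List.mem_ofFn] at he
    obtain ⟨i, rfl⟩ := he
    have h7 := (σ i).2
    rw [vals_length] at h3
    have h8 := sz_nat_le ((σ i : ℕ))
    have h9 := NPC.Poly.size_le_self ((σ i : ℕ))
    omega
  have h2 := valid_length_le hG hT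
  unfold szB
  have h3 := Nat.mul_le_mul_right (m * (4 * m + 2) + 1 + 1) h2
  omega

/-- Decoding of an input with a table. -/
def dt (y : List Bool) : List Bool × List (List ℕ) :=
  (unbits (List Bool × List (List ℕ)) y).getD ([], [])

theorem dt_bits (c : List Bool × List (List ℕ)) : dt (bits c) = c := by
  rw [dt, unbits_bits]
  rfl

theorem dt_poly : Poly dt := NPC.Poly.optGetD poly_unbits (NPC.Poly.const _)

/-- The languages which are decided in nondeterministic polynomial time with a complete table. -/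
def InNY (G L : Set (List Bool)) : Prop :=
  ∃ (D : List Bool × (List (List ℕ) × List Bool) → Bool) (p s : Polynomial ℕ), Poly D ∧
    ∀ (x : List Bool) (T : List (List ℕ)), Comp G (p.eval x.length) T →
      (x ∈ L ↔ ∃ w : List Bool, w.length ≤ s.eval x.length ∧ D (x, (T, w)) = true)

theorem inNY_of_inP {L : Set (List Bool)} (h : InP L) : InNY G L := by
  obtain ⟨V, hV, hVL⟩ := h
  refine ⟨fun c => decide (V c.1 = [true]), 0, 0, NPC.Poly.decide_eq
    ((PIso.poly_iff.2 hV : Poly V).comp (NPC.Poly.fst NPC.Poly.id)) (NPC.Poly.const _),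
    fun x T _ => ?_⟩
  rw [hVL]
  constructor
  · intro h
    exact ⟨[], by simp, by simpa using h⟩
  · rintro ⟨w, _, h⟩
    simpa using h

/-- `NP` relative to `G`. -/
theorem inNY_of_inNPT (hG : ∀ z : List Bool, z ∈ G ↔ ∃ (N : ℕ) (σ : Equiv.Perm (Fin N)),
    σ ∈ H N ∧ z = bits (vals σ)) {L : Set (List Bool)} (h : InNPT G L) : InNY G L := by
  obtain ⟨M, s, hM, hL⟩ := h
  obtain ⟨D, p, hD, hDM⟩ := inY_of_inPT hG hM
  obtain ⟨m1, hm1⟩ : ∃ m1 : Polynomial ℕ, ∀ n, m1.eval n = p.eval (2 * n + 1 + s.eval n) :=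
    ⟨p.comp (Polynomial.C 2 * Polynomial.X + 1 + s), fun n => by
      rw [Polynomial.eval_comp]
      simp only [Polynomial.eval_add, Polynomial.eval_mul, Polynomial.eval_C, Polynomial.eval_X,
        Polynomial.eval_one]⟩
  have e1 : Poly (fun c : List Bool × (List (List ℕ) × List Bool) => c.1) :=
    NPC.Poly.fst NPC.Poly.id
  have e2 : Poly (fun c : List Bool × (List (List ℕ) × List Bool) => c.2.1) :=
    NPC.Poly.fst (NPC.Poly.snd NPC.Poly.id)
  have e3 : Poly (fun c : List Bool × (List (List ℕ) × List Bool) => c.2.2) :=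
    NPC.Poly.snd (NPC.Poly.snd NPC.Poly.id)
  have e4 := Pool.Agent.H622R2.poly_pairBits e1 e3
  refine ⟨fun c => D (pairBits c.1 c.2.2, cut (p.eval (pairBits c.1 c.2.2).length) c.2.1), m1, s,
    hD.comp (NPC.Poly.pair e4 (cut_poly ((UPoly.length e4).eval p).toPoly e2)), fun x T hT => ?_⟩
  rw [hL]
  refine exists_congr fun w => and_congr_right fun hw => ?_
  refine (hDM _ _ (comp_cut hT ?_)).symm
  rw [hm1]
  refine eval_mono p ?_
  rw [PIso.pairBits_length]
  omega

/-- **Existential quantifiers.** -/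
theorem inNY_ex {L M : Set (List Bool)} (hM : InNY G M) {s : Polynomial ℕ}
    (hL : ∀ x : List Bool, x ∈ L ↔
      ∃ w : List Bool, w.length ≤ s.eval x.length ∧ pairBits x w ∈ M) : InNY G L := by
  obtain ⟨D, p, r, hD, hDM⟩ := hM
  obtain ⟨m1, hm1⟩ : ∃ m1 : Polynomial ℕ, ∀ n, m1.eval n = p.eval (2 * n + 1 + s.eval n) :=
    ⟨p.comp (Polynomial.C 2 * Polynomial.X + 1 + s), fun n => by
      rw [Polynomial.eval_comp]
      simp only [Polynomial.eval_add, Polynomial.eval_mul, Polynomial.eval_C, Polynomial.eval_X,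
        Polynomial.eval_one]⟩
  obtain ⟨r1, hr1⟩ : ∃ r1 : Polynomial ℕ, ∀ n, r1.eval n = 2 * s.eval n + 1 +
      r.eval (2 * n + 1 + s.eval n) :=
    ⟨Polynomial.C 2 * s + 1 + r.comp (Polynomial.C 2 * Polynomial.X + 1 + s), fun n => by
      simp only [Polynomial.eval_add, Polynomial.eval_mul, Polynomial.eval_C, Polynomial.eval_X,
        Polynomial.eval_one, Polynomial.eval_comp]⟩
  have e1 : Poly (fun c : List Bool × (List (List ℕ) × List Bool) => c.1) :=
    NPC.Poly.fst NPC.Poly.id
  have e2 : Poly (fun c : List Bool × (List (List ℕ) × List Bool) => c.2.1) :=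
    NPC.Poly.fst (NPC.Poly.snd NPC.Poly.id)
  have e3 : Poly (fun c : List Bool × (List (List ℕ) × List Bool) => (unpair c.2.2).1) :=
    NPC.Poly.fst (poly_unpair.comp (NPC.Poly.snd (NPC.Poly.snd NPC.Poly.id)))
  have e3' : Poly (fun c : List Bool × (List (List ℕ) × List Bool) => (unpair c.2.2).2) :=
    NPC.Poly.snd (poly_unpair.comp (NPC.Poly.snd (NPC.Poly.snd NPC.Poly.id)))
  have e4 := Pool.Agent.H622R2.poly_pairBits e1 e3
  refine ⟨fun c => decide ((unpair c.2.2).1.length ≤ s.eval c.1.length) &&
    (decide ((unpair c.2.2).2.length ≤ r.eval (pairBits c.1 (unpair c.2.2).1).length) &&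
      D (pairBits c.1 (unpair c.2.2).1, (cut (p.eval (pairBits c.1 (unpair c.2.2).1).length) c.2.1,
        (unpair c.2.2).2))), m1, r1, NPC.Poly.and (NPC.Poly.decide_le (NPC.Poly.length e3)
          ((UPoly.length e1).eval s).toPoly) (NPC.Poly.and (NPC.Poly.decide_le
            (NPC.Poly.length e3') ((UPoly.length e4).eval r).toPoly) (hD.comp (NPC.Poly.pair e4
              (NPC.Poly.pair (cut_poly ((UPoly.length e4).eval p).toPoly e2) e3')))),
    fun x T hT => ?_⟩
  have hc : ∀ w : List Bool, w.length ≤ s.eval x.length →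
      Comp G (p.eval (pairBits x w).length) (cut (p.eval (pairBits x w).length) T) := by
    intro w hw
    refine comp_cut hT ?_
    rw [hm1]
    refine eval_mono p ?_
    rw [PIso.pairBits_length]
    omega
  simp only [Bool.and_eq_true, decide_eq_true_eq]
  rw [hL]
  constructor
  · rintro ⟨w, hw, hwM⟩
    obtain ⟨u, hu, huD⟩ := (hDM _ _ (hc w hw)).1 hwM
    refine ⟨pairBits w u, ?_, ?_⟩
    · rw [PIso.pairBits_length, hr1]
      rw [PIso.pairBits_length] at hu
      have h1 : r.eval (2 * x.length + 1 + w.length) ≤ r.eval (2 * x.length + 1 +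
        s.eval x.length) := eval_mono r (by omega)
      omega
    · rw [unpair_pairBits]
      exact ⟨hw, hu, huD⟩
  · rintro ⟨u, _, h1, h2, h3⟩
    exact ⟨_, h1, (hDM _ _ (hc _ h1)).2 ⟨_, h2, h3⟩⟩

/-- **Complements.** -/
theorem inNY_compl (hG : ∀ z : List Bool, z ∈ G ↔ ∃ (N : ℕ) (σ : Equiv.Perm (Fin N)),
    σ ∈ H N ∧ z = bits (vals σ)) (hco : ∀ L, InNP L → InNPT G Lᶜ) {L : Set (List Bool)}
    (hL : InNY G L) : InNY G Lᶜ := by
  obtain ⟨D, p, s, hD, hDL⟩ := hL
  -- the language in `NP`
  obtain ⟨q, hq⟩ := (dt_poly).sz_le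
  have h1 : InNP {y | ∃ w : List Bool, w.length ≤ s.eval (dt y).1.length ∧
      D ((dt y).1, ((dt y).2, w)) = true} := by
    have e1 : Poly (fun z : List Bool => dt (unpair z).1) :=
      dt_poly.comp (NPC.Poly.fst poly_unpair)
    have e2 : Poly (fun z : List Bool => (unpair z).2) := NPC.Poly.snd poly_unpair
    refine ⟨fun z => [decide ((unpair z).2.length ≤ s.eval (dt (unpair z).1).1.length) &&
      D ((dt (unpair z).1).1, ((dt (unpair z).1).2, (unpair z).2))],
      s.comp (q.comp (Polynomial.C 4 * Polynomial.X + 1)), polyTime_of_poly (NPC.Poly.and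
        (NPC.Poly.decide_le (NPC.Poly.length e2) ((UPoly.length (NPC.Poly.fst e1)).eval s).toPoly)
        (hD.comp (NPC.Poly.pair (NPC.Poly.fst e1) (NPC.Poly.pair (NPC.Poly.snd e1) e2)))),
      fun y => ?_⟩
    simp only [Set.mem_ofPred_eq, unpair_pairBits, List.cons.injEq, and_true, Bool.and_eq_true,
      decide_eq_true_eq]
    constructor
    · rintro ⟨w, hw, hwD⟩
      refine ⟨w, hw.trans ?_, hw, hwD⟩
      rw [Polynomial.eval_comp, Polynomial.eval_comp]
      refine eval_mono s ?_
      have h2 := hq y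
      have h3 := sz_listBool_le y
      have h4 : (dt y).1.length ≤ sz (dt y) := by
        have h5 := length_lt_sz (dt y).1
        have h6 : sz (dt y) = sz (dt y).1 + sz (dt y).2 + 1 := by rw [← sz_pair]
        omega
      have h5 : q.eval (sz y) ≤ q.eval (4 * y.length + 1) := eval_mono q h3
      simp only [Polynomial.eval_add, Polynomial.eval_mul, Polynomial.eval_C, Polynomial.eval_X,
        Polynomial.eval_one]
      omega
    · rintro ⟨w, _, hw, hwD⟩
      exact ⟨w, hw, hwD⟩
  obtain ⟨D', p', s', hD', hDL'⟩ := inNY_of_inNPT hG (hco _ h1)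
  -- the bounds
  obtain ⟨B, hBe⟩ : ∃ B : Polynomial ℕ, ∀ n, B.eval n = 4 * n + 1 + szB (p.eval n) + 1 :=
    ⟨Polynomial.C 4 * Polynomial.X + 1 +
      (p ^ 3 * (p * (Polynomial.C 4 * p + 2) + 1 + 1) + 1) + 1, fun n => by
      unfold szB
      simp only [Polynomial.eval_add, Polynomial.eval_mul, Polynomial.eval_C, Polynomial.eval_X,
        Polynomial.eval_one, Polynomial.eval_pow, Polynomial.eval_ofNat]⟩
  have e1 : Poly (fun c : List Bool × (List (List ℕ) × List Bool) => c.1) :=
    NPC.Poly.fst NPC.Poly.id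
  have e2 : Poly (fun c : List Bool × (List (List ℕ) × List Bool) => c.2.1) :=
    NPC.Poly.fst (NPC.Poly.snd NPC.Poly.id)
  have e2' : Poly (fun c : List Bool × (List (List ℕ) × List Bool) => c.2.2) :=
    NPC.Poly.snd (NPC.Poly.snd NPC.Poly.id)
  have e3 : Poly (fun c : List Bool × (List (List ℕ) × List Bool) =>
      bits (c.1, cut (p.eval c.1.length) c.2.1)) :=
    bits_poly.comp (NPC.Poly.pair e1 (cut_poly ((UPoly.length e1).eval p).toPoly e2))
  refine ⟨fun c => decide (c.2.2.length ≤ s'.eval (bits (c.1, cut (p.eval c.1.length) c.2.1)).length)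
      && D' (bits (c.1, cut (p.eval c.1.length) c.2.1),
        (cut (p'.eval (bits (c.1, cut (p.eval c.1.length) c.2.1)).length) c.2.1, c.2.2)),
    p + p'.comp B, s'.comp B, NPC.Poly.and (NPC.Poly.decide_le (NPC.Poly.length e2')
      ((UPoly.length e3).eval s').toPoly) (hD'.comp (NPC.Poly.pair e3 (NPC.Poly.pair
        (cut_poly ((UPoly.length e3).eval p').toPoly e2) e2'))), fun x T hT => ?_⟩
  rw [Polynomial.eval_add, Polynomial.eval_comp, hBe] at hT
  have hT1 : Comp G (p.eval x.length) (cut (p.eval x.length) T) := comp_cut hT (by omega)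
  have hlen : (bits (x, cut (p.eval x.length) T)).length ≤
      4 * x.length + 1 + szB (p.eval x.length) + 1 := by
    rw [bits_length, sz_pair]
    have h2 := sz_listBool_le x
    have h3 := valid_sz_le hG hT1.1
    omega
  have hT2 : Comp G (p'.eval (bits (x, cut (p.eval x.length) T)).length)
      (cut (p'.eval (bits (x, cut (p.eval x.length) T)).length) T) := by
    refine comp_cut hT ?_
    have := eval_mono p' hlen
    omega
  have h2 := hDL' _ _ hT2
  have h3 : bits (x, cut (p.eval x.length) T) ∈ {y | ∃ w : List Bool,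
      w.length ≤ s.eval (dt y).1.length ∧ D ((dt y).1, ((dt y).2, w)) = true}ᶜ ↔ x ∈ Lᶜ := by
    rw [Set.mem_compl_iff, Set.mem_compl_iff, hDL _ _ hT1, Set.mem_ofPred_eq, dt_bits]
  rw [← h3, h2]
  simp only [Bool.and_eq_true, decide_eq_true_eq]
  constructor
  · rintro ⟨w, hw, hwD⟩
    refine ⟨w, hw.trans ?_, hw, hwD⟩
    rw [Polynomial.eval_comp, hBe]
    exact eval_mono s' hlen
  · rintro ⟨w, _, hw, hwD⟩
    exact ⟨w, hw, hwD⟩

/-- **The polynomial hierarchy.** -/
theorem ph_inNY (hG : ∀ z : List Bool, z ∈ G ↔ ∃ (N : ℕ) (σ : Equiv.Perm (Fin N)),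
    σ ∈ H N ∧ z = bits (vals σ)) (hco : ∀ L, InNP L → InNPT G Lᶜ) :
    ∀ (k : ℕ) (L : Set (List Bool)), SigmaP k L → InNY G L := by
  intro k
  induction k with
  | zero => exact fun L hL => inNY_of_inP hL
  | succ k ih =>
    rintro L ⟨M, s, hM, hL⟩
    exact inNY_ex (inNY_compl hG hco (ih M hM)) hL

end Pool.Agent.TH682.KD
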