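import Pool.Agent.TH682.KD.Defs

/-!
# Complete tables of a group language
-/

set_option autoImplicit false

namespace Pool.Agent.TH682.KD

open Pool.Agent.NPC Pool.Agent.TH682.GD

/-- The entries of length `N`. -/
def row (N : ℕ) (T : List (List ℕ)) : List (List ℕ) := T.filter (fun v => decide (v.length = N))

/-- The degree and the key. -/
def kk (v : List ℕ) : ℕ × Option (ℕ × ℕ) := (v.length, key v)

/-- Valid tables. -/
def Valid (G : Set (List Bool)) (m : ℕ) (T : List (List ℕ)) : Prop :=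
  (∀ v ∈ T, bits v ∈ G ∧ v.length < m ∧ key v ≠ none) ∧ (T.map kk).Nodup

/-- Complete tables. -/
def Comp (G : Set (List Bool)) (m : ℕ) (T : List (List ℕ)) : Prop :=
  Valid G m T ∧ ∀ v : List ℕ, bits v ∈ G → v.length < m → key (sft (row v.length T) v) = none

theorem bits_inj {v w : List ℕ} (h : bits v = bits w) : v = w := by
  have h1 := congrArg (unbits (List ℕ)) h
  rw [unbits_bits, unbits_bits] at h1
  exact Option.some.inj h1

theorem mem_row {N : ℕ} {T : List (List ℕ)} {v : List ℕ} : v ∈ row N T ↔ v ∈ T ∧ v.length = N := by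
  unfold row
  rw [List.mem_filter, decide_eq_true_eq]

variable {G : Set (List Bool)} {H : ∀ N : ℕ, Subgroup (Equiv.Perm (Fin N))}

theorem mem_G (hG : ∀ z : List Bool, z ∈ G ↔ ∃ (N : ℕ) (σ : Equiv.Perm (Fin N)), σ ∈ H N ∧
    z = bits (vals σ)) {N : ℕ} {σ : Equiv.Perm (Fin N)} : bits (vals σ) ∈ G ↔ σ ∈ H N := by
  rw [hG]
  constructor
  · rintro ⟨M, τ, h1, h2⟩
    have h3 := bits_inj h2
    have h4 : N = M := by
      have := congrArg List.length h3
      rwa [vals_length, vals_length] at this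
    subst h4
    rwa [vals_injective h3]
  · intro h
    exact ⟨N, σ, h, rfl⟩

theorem row_inH (hG : ∀ z : List Bool, z ∈ G ↔ ∃ (N : ℕ) (σ : Equiv.Perm (Fin N)), σ ∈ H N ∧
    z = bits (vals σ)) {m N : ℕ} {T : List (List ℕ)} (hT : Valid G m T) :
    ∀ v ∈ row N T, InH (H N) v := by
  intro v hv
  obtain ⟨h1, h2⟩ := mem_row.1 hv
  obtain ⟨M, σ, h3, h4⟩ := (hG _).1 (hT.1 v h1).1
  have h5 := bits_inj h4
  subst h5
  rw [vals_length] at h2
  subst h2
  exact inH_vals.2 h3

theorem row_tab (hG : ∀ z : List Bool, z ∈ G ↔ ∃ (N : ℕ) (σ : Equiv.Perm (Fin N)), σ ∈ H N ∧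
    z = bits (vals σ)) {m N : ℕ} {T : List (List ℕ)} (hT : Valid G m T) : Tab N (row N T) := by
  refine ⟨fun v hv => ?_, ?_⟩
  · obtain ⟨σ, _, h2⟩ := row_inH hG hT v hv
    refine ⟨σ, h2, fun h3 => ?_⟩
    have h4 := (hT.1 v (mem_row.1 hv).1).2.2
    rw [← h2] at h4
    exact h4 ((key_none σ).2 h3)
  · have h1 : (row N T).Nodup := (List.Nodup.of_map _ hT.2).filter _
    refine (List.nodup_map_iff_inj_on h1).2 fun v hv w hw hvw => ?_
    obtain ⟨h2, h3⟩ := mem_row.1 hv
    obtain ⟨h4, h5⟩ := mem_row.1 hw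
    have h6 : kk v = kk w := by
      unfold kk
      rw [hvw, h3, h5]
    exact List.inj_on_of_nodup_map hT.2 h2 h4 h6

/-- Longest tables are complete. -/
theorem comp_of_max (hG : ∀ z : List Bool, z ∈ G ↔ ∃ (N : ℕ) (σ : Equiv.Perm (Fin N)), σ ∈ H N ∧
    z = bits (vals σ)) {m : ℕ} {T : List (List ℕ)} (hT : Valid G m T)
    (hmax : ∀ T', Valid G m T' → T'.length ≤ T.length) : Comp G m T := by
  refine ⟨hT, fun v hv hm => ?_⟩
  obtain ⟨N, σ, h1, h2⟩ := (hG _).1 hv
  have h3 := bits_inj h2
  subst h3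
  rw [vals_length] at hm ⊢
  obtain ⟨σ', h4, h5, h6⟩ := sft_spec (row_tab (N := N) hG hT) σ
  rw [h4]
  have h7 : σ' ∈ H N := (h5 _ (row_inH hG hT)).1 h1
  by_contra hcon
  have h8 : σ' ≠ 1 := fun h => hcon ((key_none σ').2 h)
  have h9 := h6.resolve_right h8
  have h10 : Valid G m (vals σ' :: T) := by
    refine ⟨fun v hv => ?_, ?_⟩
    · rcases List.mem_cons.1 hv with rfl | hv
      · exact ⟨(mem_G hG).2 h7, by rw [vals_length]; exact hm, hcon⟩
      · exact hT.1 v hv
    · rw [List.map_cons, List.nodup_cons]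
      refine ⟨fun h => h9 ?_, hT.2⟩
      obtain ⟨w, hw1, hw2⟩ := List.mem_map.1 h
      unfold kk at hw2
      rw [Prod.mk.injEq, vals_length] at hw2
      exact List.mem_map.2 ⟨w, mem_row.2 ⟨hw1, hw2.1⟩, hw2.2⟩
  have := hmax _ h10
  simp at this

theorem valid_length_le (hG : ∀ z : List Bool, z ∈ G ↔ ∃ (N : ℕ) (σ : Equiv.Perm (Fin N)),
    σ ∈ H N ∧ z = bits (vals σ)) {m : ℕ} {T : List (List ℕ)} (hT : Valid G m T) :
    T.length ≤ m ^ 3 := by
  have h1 : (T.map kk).toFinset ⊆ (Finset.range m ×ˢ (Finset.range m ×ˢ Finset.range m)).image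
      (fun p : ℕ × (ℕ × ℕ) => (p.1, some p.2)) := by
    intro o ho
    rw [List.mem_toFinset, List.mem_map] at ho
    obtain ⟨v, hv, rfl⟩ := ho
    obtain ⟨h2, h3, h4⟩ := hT.1 v hv
    obtain ⟨N, σ, _, h5⟩ := (hG _).1 h2
    have h6 := bits_inj h5
    subst h6
    obtain ⟨⟨i, w⟩, hiw⟩ := Option.ne_none_iff_exists'.1 h4
    obtain ⟨hi, _, _, _, h8⟩ := key_some hiw
    rw [vals_length] at h3
    refine Finset.mem_image.2 ⟨(N, (i, w)), ?_, ?_⟩
    · simp only [Finset.mem_product, Finset.mem_range]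
      exact ⟨h3, by omega, by omega⟩
    · unfold kk
      rw [vals_length, hiw]
  have h2 := Finset.card_le_card h1
  rw [List.toFinset_card_of_nodup hT.2, List.length_map] at h2
  refine h2.trans (Finset.card_image_le.trans (le_of_eq ?_))
  rw [Finset.card_product, Finset.card_product, Finset.card_range]
  ring

/-- The part of a table of degrees smaller than `m`. -/
def cut (m : ℕ) (T : List (List ℕ)) : List (List ℕ) := T.filter (fun v => decide (v.length < m))

theorem comp_cut {m m' : ℕ} {T : List (List ℕ)} (hT : Comp G m' T) (hm : m ≤ m') :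
    Comp G m (cut m T) := by
  refine ⟨⟨fun v hv => ?_, ?_⟩, fun v hv hvm => ?_⟩
  · unfold cut at hv
    rw [List.mem_filter, decide_eq_true_eq] at hv
    exact ⟨(hT.1.1 v hv.1).1, hv.2, (hT.1.1 v hv.1).2.2⟩
  · exact hT.1.2.sublist (List.Sublist.map _ (List.filter_sublist))
  · have h1 : row v.length (cut m T) = row v.length T := by
      unfold row cut
      rw [List.filter_filter]
      refine List.filter_congr fun w _ => ?_
      by_cases h : w.length = v.length
      · simp [h, hvm]
      · simp [h]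
    rw [h1]
    exact hT.2 v hv (by omega)

/-- The value lists of permutations. -/
def isp (v : List ℕ) : Bool := (List.range v.length).all (fun i => decide (i ∈ v))

theorem isp_vals {N : ℕ} (σ : Equiv.Perm (Fin N)) : isp (vals σ) = true := by
  unfold isp
  rw [List.all_eq_true]
  intro i hi
  rw [List.mem_range, vals_length] at hi
  rw [decide_eq_true_eq]
  unfold vals
  rw [List.mem_ofFn]
  exact ⟨σ⁻¹ ⟨i, hi⟩, by simp⟩

theorem exists_of_isp {v : List ℕ} (h : isp v = true) :
    ∃ σ : Equiv.Perm (Fin v.length), vals σ = v := by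
  unfold isp at h
  rw [List.all_eq_true] at h
  have h1 : List.range v.length ⊆ v := fun i hi => by simpa using h i hi
  have h2 : (List.range v.length).Subperm v := List.nodup_range.subperm h1
  have h3 : (List.range v.length).Perm v := h2.perm_of_length_le (by simp)
  have h4 : v.Nodup := h3.nodup_iff.1 List.nodup_range
  have h5 : ∀ i (hi : i < v.length), v[i] < v.length := fun i hi => by
    have := h3.mem_iff.2 (List.getElem_mem hi)
    simpa using this
  have h6 : Function.Injective (fun i : Fin v.length => (⟨v[i], h5 i i.2⟩ : Fin v.length)) := by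
    intro i j hij
    have h7 : v[(i : ℕ)] = v[(j : ℕ)] := congrArg Fin.val hij
    exact Fin.ext ((List.Nodup.getElem_inj_iff h4).1 h7)
  refine ⟨Equiv.ofBijective _ (Finite.injective_iff_bijective.1 h6), ?_⟩
  refine List.ext_getElem (by simp) fun i h7 h8 => ?_
  rw [vals_getElem]
  rfl

/-- The answer to a query, according to a table. -/
def ans (T : List (List ℕ)) (q : List Bool) : Bool :=
  decide (bits ((unbits (List ℕ) q).getD []) = q) && (isp ((unbits (List ℕ) q).getD []) &&
    decide (key (sft (row ((unbits (List ℕ) q).getD []).length T) ((unbits (List ℕ) q).getD [])) =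
      none))

theorem ans_bits (T : List (List ℕ)) (v : List ℕ) :
    ans T (bits v) = (isp v && decide (key (sft (row v.length T) v) = none)) := by
  unfold ans
  rw [unbits_bits]
  simp

/-- **Complete tables give correct answers.** -/
theorem ans_iff (hG : ∀ z : List Bool, z ∈ G ↔ ∃ (N : ℕ) (σ : Equiv.Perm (Fin N)),
    σ ∈ H N ∧ z = bits (vals σ)) {m : ℕ} {T : List (List ℕ)} (hT : Comp G m T) {q : List Bool}
    (hq : q.length ≤ m) : ans T q = true ↔ q ∈ G := by
  have hlen : ∀ v : List ℕ, v.length < (bits v).length := fun v => by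
    rw [bits_length]
    exact length_lt_sz v
  constructor
  · intro h
    have h1 := h
    unfold ans at h1
    rw [Bool.and_eq_true, decide_eq_true_eq] at h1
    rw [← h1.1] at h hq ⊢
    set v := (unbits (List ℕ) q).getD [] with hv
    rw [ans_bits, Bool.and_eq_true, decide_eq_true_eq] at h
    obtain ⟨σ, hσ⟩ := exists_of_isp h.1
    obtain ⟨σ', h4, h5, h6⟩ := sft_spec (row_tab (N := v.length) hG hT.1) σ
    rw [hσ] at h4
    rw [h4, key_none] at h
    rw [← hσ, mem_G hG, h5 _ (row_inH hG hT.1), h.2]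
    exact (H v.length).one_mem
  · intro h
    obtain ⟨N, σ, h1, h2⟩ := (hG _).1 h
    subst h2
    rw [ans_bits, isp_vals, Bool.true_and, decide_eq_true_eq]
    exact hT.2 _ h (lt_of_lt_of_le (hlen _) hq)

end Pool.Agent.TH682.KD
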